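import Pool.Agent.H723R3.DyadicEuclid

set_option autoImplicit false

namespace Pool.Agent.Results.MP_23f460_nt.InfinitelyManyEuclid

open Pool.Agent.H723R3

/-- **The finiteness statement of the problem is false.**  Over the Hasse domain `R = ℤ[1/2]`
(the field `ℚ` with the set of places `{∞, 2}`) there are infinitely many pairwise non-isomorphic
nondegenerate anisotropic Euclidean quadratic forms. -/
theorem result : ∃ (d : ℕ → ℕ) (q : ∀ k : ℕ, Matrix (Fin (d k)) (Fin (d k)) dyadicRing),
    (∀ k, 1 ≤ d k ∧ IsNondegenerate (q k) ∧ IsAnisotropic ℚ (q k) ∧ IsEuclideanForm ℚ (q k)) ∧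
    ∀ k l, k ≠ l → ¬ IsomorphicForms (q k) (q l) := by
  refine ⟨fun k => 4 + (4 + (4 + k)), fun k => sumSq (4 + (4 + (4 + k))) dyadicRing, ?_, ?_⟩
  · intro k
    exact ⟨by change 1 ≤ 4 + (4 + (4 + k)); omega, sumSq_nondegenerate _, sumSq_anisotropic _,
      sumSq_euclidean k⟩
  · intro k l hkl
    exact not_isomorphic (by change 4 + (4 + (4 + k)) ≠ 4 + (4 + (4 + l)); omega) _ _

end Pool.Agent.Results.MP_23f460_nt.InfinitelyManyEuclid
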